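import Mathlib
import Pool.Agent.GM.Defs
import Pool.Agent.GM.Final

set_option autoImplicit false

open MeasureTheory Pool.Agent.GM

namespace Pool.Agent.Results.MP_3f28ca_an.ParryIsFrequency

/-- There is a primitive random substitution on `{a, b}` whose frequency measure is the Parry
measure of the golden mean shift: `a, b ↦ a` with probability `1/τ` and `a, b ↦ ab` with
probability `1/τ²`. -/
theorem result :
    ∃ θ : Bool → PMF (List Bool), IsRandomSubstitution θ ∧ IsPrimitive θ ∧
      ∃ μ : Measure (ℤ → Bool), IsParryMeasure μ ∧ IsFrequencyMeasure θ μ :=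
  ⟨theta, theta_subst, theta_primitive, parry, parry_isParry, theta_frequency⟩

end Pool.Agent.Results.MP_3f28ca_an.ParryIsFrequency
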